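import Pool.Agent.Q299.TD.Main

/-!
Typical distance in random Cayley graphs of finite abelian groups: for every sequence `(G, k)`
with `1 ≪ k ≪ log |G|` and `k - d(G) ≍ k`, the distance from the identity to a uniform vertex,
divided by `k |G|^{1/k} / e` (directed) or by `k |G|^{1/k} / (2e)` (undirected), tends to `1` in
probability.
-/

namespace Pool.Agent.Results.MP_6efeb4_pr.TypicalDistance

open Filter Topology Q299.TD

/-- The hypotheses of Q2 on the sequence `(G N, k N)`: `|G| → ∞`, `1 ≪ k ≪ log |G|` and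
`k - d(G) ≍ k`, where `d(G) = AddGroup.rank G` is the least size of a generating set. -/
structure Regime (G : ℕ → Type*) [∀ N, AddCommGroup (G N)] [∀ N, Finite (G N)]
    (k : ℕ → ℕ) : Prop where
  card_large : Tendsto (fun N => Nat.card (G N)) atTop atTop
  k_large : Tendsto k atTop atTop
  k_small : Tendsto (fun N => (k N : ℝ) / Real.log (Nat.card (G N))) atTop (𝓝 0)
  gap : ∃ c : ℝ, 0 < c ∧ ∀ᶠ N in atTop, c * k N ≤ (k N : ℝ) - AddGroup.rank (G N)

/-- The typical distance `dist(id, U)` in the graph on `G N` with `k N` uniform independent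
generators, whose adjacency is `adj`, concentrates at the deterministic values `D N`. -/
def Concentrates (G : ℕ → Type*) [∀ N, AddCommGroup (G N)] (k : ℕ → ℕ)
    (adj : ∀ N, (Fin (k N) → G N) → G N → G N → Prop) (D : ℕ → ℝ) : Prop :=
  ∀ ε : ℝ, 0 < ε → Tendsto (fun N => prob (G N) (k N) fun Z u =>
    ¬ ∃ r : ℕ, gdist (adj N Z) 0 u = r ∧ |(r : ℝ) / D N - 1| ≤ ε) atTop (𝓝 0)

/-- The value for the directed graph, a function of `k` and `n = |G|` only. -/
noncomputable def Ddir (k n : ℕ) : ℝ := k * (n : ℝ) ^ (1 / (k : ℝ)) / Real.exp 1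

/-- The value for the undirected graph, a function of `k` and `n = |G|` only. -/
noncomputable def Dundir (k n : ℕ) : ℝ := k * (n : ℝ) ^ (1 / (k : ℝ)) / (2 * Real.exp 1)

lemma prob_mono {G : Type*} [Finite G] {k : ℕ} {E F : (Fin k → G) → G → Prop}
    (h : ∀ Z u, E Z u → F Z u) : prob G k E ≤ prob G k F := by
  unfold prob
  refine div_le_div_of_nonneg_right ?_ (Nat.cast_nonneg _)
  have h1 : Nat.card {p : (Fin k → G) × G // E p.1 p.2}
      ≤ Nat.card {p : (Fin k → G) × G // F p.1 p.2} :=
    Nat.card_le_card_of_injective (fun p => ⟨p.1, h p.1.1 p.1.2 p.2⟩) fun p q hpq =>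
      Subtype.ext (by simpa using hpq)
  exact_mod_cast h1

lemma prob_nonneg {G : Type*} {k : ℕ} {E : (Fin k → G) → G → Prop} : 0 ≤ prob G k E := by
  unfold prob; positivity

/-- the common proof of the two parts -/
lemma concentrates_of {G : ℕ → Type*} [∀ N, AddCommGroup (G N)] [∀ N, Finite (G N)] {k : ℕ → ℕ}
    (hreg : Regime G k) {adj : ∀ N, (Fin (k N) → G N) → G N → G N → Prop} {S : Finset ℤ}
    (hS : ∀ σ ∈ S, σ = 1 ∨ σ = -1) (hS1 : 1 ≤ S.card) {A : ℕ → Finset ℤ}
    (hA : ∀ (θ : ℝ), 0 < θ → ∀ R, ∑ x ∈ A R, Real.exp (-(θ * (x.natAbs : ℕ))) ≤ 1 + S.card / θ)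
    (h1 : ∀ (N R : ℕ) (Z : Fin (k N) → G N) (w : Fin (k N) → ℤ × ℕ), w ∈ wrd S (k N) R →
      ∃ r ≤ R, HasWalk (adj N Z) r 0 (∑ i, val (w i) • Z i))
    (h2 : ∀ (N R' : ℕ) (Z : Fin (k N) → G N) (r : ℕ) (u : G N), r ≤ R' →
      HasWalk (adj N Z) r 0 u →
      ∃ v : Fin (k N) → ℤ, (∀ i, v i ∈ A R') ∧ ∑ i, (v i).natAbs ≤ R' ∧ ∑ i, v i • Z i = u) :
    Concentrates G k adj (fun N => k N * (Nat.card (G N) : ℝ) ^ (1 / (k N : ℝ))
      / (S.card * Real.exp 1)) := by
  classical
  intro ε₀ hε₀
  -- reduce to `ε < 1`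
  obtain ⟨ε, hε, hε1, hεε⟩ : ∃ ε : ℝ, 0 < ε ∧ ε < 1 ∧ ε ≤ ε₀ :=
    ⟨min ε₀ (1 / 2), by positivity, lt_of_le_of_lt (min_le_right _ _) (by norm_num),
      min_le_left _ _⟩
  obtain ⟨c₀, hc₀, hgap₀⟩ := hreg.gap
  obtain ⟨c, hc, hc1, hcc⟩ : ∃ c : ℝ, 0 < c ∧ c ≤ 1 ∧ c ≤ c₀ :=
    ⟨min c₀ 1, by positivity, min_le_right _ _, min_le_left _ _⟩
  obtain ⟨X₀, b, hb, hmiss⟩ := missing_small hS hS1 hc hc1 hε
  have he := Real.exp_pos 1
  have hs0 : (0 : ℝ) < S.card := by exact_mod_cast hS1
  -- `X = |G|^{1/k}` tends to infinity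
  have hX : Tendsto (fun N => (Nat.card (G N) : ℝ) ^ (1 / (k N : ℝ))) atTop atTop := by
    have hlog : Tendsto (fun N => Real.log (Nat.card (G N)) / (k N : ℝ)) atTop atTop := by
      have h3 : Tendsto (fun N => ((k N : ℝ) / Real.log (Nat.card (G N)))⁻¹) atTop atTop := by
        refine Tendsto.inv_tendsto_nhdsGT_zero ?_
        rw [tendsto_nhdsWithin_iff]
        refine ⟨hreg.k_small, ?_⟩
        filter_upwards [hreg.k_large.eventually_ge_atTop 1, hreg.card_large.eventually_ge_atTop 2]
          with N h4 h5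
        have h6 : (1 : ℝ) < Nat.card (G N) := by exact_mod_cast h5
        have h7 : (0 : ℝ) < k N := by exact_mod_cast h4
        exact div_pos h7 (Real.log_pos h6)
      refine h3.congr fun N => ?_
      rw [inv_div]
    have h4 : Tendsto (fun N => Real.exp (Real.log (Nat.card (G N)) / (k N : ℝ))) atTop atTop :=
      Real.tendsto_exp_atTop.comp hlog
    refine h4.congr' ?_
    filter_upwards [hreg.card_large.eventually_ge_atTop 2] with N h5
    have h6 : (0 : ℝ) < Nat.card (G N) := by
      have : 0 < Nat.card (G N) := by omega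
      exact_mod_cast this
    rw [Real.rpow_def_of_pos h6]
    congr 1
    ring
  have hlim : Tendsto (fun N => b (k N) + (1 - ε / 2) ^ (k N)) atTop (𝓝 0) := by
    have h3 := hb.comp hreg.k_large
    have h4 : Tendsto (fun j : ℕ => (1 - ε / 2) ^ j) atTop (𝓝 0) :=
      tendsto_pow_atTop_nhds_zero_of_lt_one (by linarith) (by linarith)
    have h5 := h3.add (h4.comp hreg.k_large)
    simpa using h5
  refine squeeze_zero' (Eventually.of_forall fun N => prob_nonneg) ?_ hlim
  have hk16 : ∀ᶠ N in atTop, 16 ≤ c * k N := by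
    have : Tendsto (fun N => c * (k N : ℝ)) atTop atTop :=
      (tendsto_natCast_atTop_atTop.comp hreg.k_large).const_mul_atTop hc
    exact this.eventually_ge_atTop 16
  filter_upwards [hX.eventually_ge_atTop (max X₀ (2 * Real.exp 1 / ε)), hgap₀,
    hreg.k_large.eventually_ge_atTop 1, hk16] with N hXN hgap hk1 hk16
  have : Fintype (G N) := Fintype.ofFinite _
  set X : ℝ := (Nat.card (G N) : ℝ) ^ (1 / (k N : ℝ)) with hXdef
  have hXN1 := le_trans (le_max_left _ _) hXN
  have hXN2 := le_trans (le_max_right _ _) hXN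
  have hXpos : 0 < X := lt_of_lt_of_le (by positivity) hXN2
  have hk0 : (0 : ℝ) < k N := by exact_mod_cast hk1
  have hXk : X ^ (k N) = Fintype.card (G N) := by
    rw [hXdef, ← Real.rpow_natCast, ← Real.rpow_mul (Nat.cast_nonneg _), one_div,
      inv_mul_cancel₀ hk0.ne', Real.rpow_one, Nat.card_eq_fintype_card]
  obtain ⟨T, hTcard, hT⟩ := AddGroup.rank_spec (G N)
  have hTc : (T.card : ℝ) ≤ (1 - c) * k N := by
    rw [hTcard]
    nlinarith
  have hm := hmiss (G := G N) (k N) T X hT hk1 hk16 hTc hXk hXN1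
  have hD : (0 : ℝ) < k N * X / (S.card * Real.exp 1) := by positivity
  have hbad := prob_bad_le (G := G N) (k := k N) (adj := adj N) (S := S)
    (A := A ⌊(1 - ε) * (k N * X / (S.card * Real.exp 1))⌋₊)
    (R := ⌊(1 + ε) * (k N * X / (S.card * Real.exp 1))⌋₊)
    (R' := ⌊(1 - ε) * (k N * X / (S.card * Real.exp 1))⌋₊) (ε := ε) hD
    (Nat.floor_le (by positivity)) (Nat.lt_floor_add_one _).le
    (fun Z w hw => h1 N _ Z w hw) (fun Z r u hr hw => h2 N _ Z r u hr hw)
  have hball := ball_small hε hε1 hs0 hA (k N) hXk hXN2 _ rfl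
  refine le_trans (prob_mono fun Z u hu => ?_) (hbad.trans (add_le_add hm hball))
  rintro ⟨r, hr, hr'⟩
  exact hu ⟨r, hr, hr'.trans hεε⟩

/-- **Main theorem.** -/
theorem result (G : ℕ → Type*) [∀ N, AddCommGroup (G N)] [∀ N, Finite (G N)] (k : ℕ → ℕ)
    (h : Regime G k) :
    Concentrates G k (fun _ Z => dirAdj Z) (fun N => Ddir (k N) (Nat.card (G N))) ∧
    Concentrates G k (fun _ Z => undirAdj Z) (fun N => Dundir (k N) (Nat.card (G N))) := by
  classical
  constructor
  · have := concentrates_of h (adj := fun _ Z => dirAdj Z) (S := {1}) (by simp) (by simp)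
      (A := fun R => Finset.Icc (0 : ℤ) R)
      (fun θ hθ R => by simpa using alpha_dir hθ R)
      (fun N R Z w hw => by
        have hw' := mem_wrd'.mp hw
        refine ⟨∑ i, (val (w i)).natAbs, ?_, ?_⟩
        · refine le_trans (Finset.sum_le_sum fun i _ => ?_) hw'.2
          have := (hw'.1 i).1
          rw [Finset.mem_singleton] at this
          unfold val
          rw [this]
          simp
        · have : Fintype (G N) := Fintype.ofFinite _
          refine walk_dir Z _ (fun i => val (w i)) (fun i => ?_) rfl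
          have := (hw'.1 i).1
          rw [Finset.mem_singleton] at this
          unfold val
          rw [this]
          simp)
      (fun N R' Z r u hr hw => by
        have : Fintype (G N) := Fintype.ofFinite _
        obtain ⟨v, hv0, hvr, hvz⟩ := word_dir Z r u hw
        refine ⟨v, fun i => ?_, hvr.trans hr, hvz⟩
        have h1 : (v i).natAbs ≤ ∑ i, (v i).natAbs :=
          Finset.single_le_sum (f := fun i => (v i).natAbs) (fun _ _ => Nat.zero_le _)
            (Finset.mem_univ i)
        have h2 := hv0 i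
        rw [Finset.mem_Icc]
        omega)
    simpa [Ddir] using this
  · have := concentrates_of h (adj := fun _ Z => undirAdj Z) (S := {1, -1}) (by simp) (by simp)
      (A := fun R => Finset.Icc (-(R : ℤ)) R)
      (fun θ hθ R => by
        have h2 : (({1, -1} : Finset ℤ).card : ℝ) = 2 := by norm_num
        rw [h2]
        exact alpha_undir hθ R)
      (fun N R Z w hw => by
        have hw' := mem_wrd'.mp hw
        refine ⟨∑ i, (val (w i)).natAbs, ?_, ?_⟩
        · refine le_trans (Finset.sum_le_sum fun i _ => ?_) hw'.2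
          have := (hw'.1 i).1
          rw [Finset.mem_insert, Finset.mem_singleton] at this
          unfold val
          rcases this with h | h <;> rw [h] <;> simp
        · have : Fintype (G N) := Fintype.ofFinite _
          exact walk_undir Z _ (fun i => val (w i)) rfl)
      (fun N R' Z r u hr hw => by
        have : Fintype (G N) := Fintype.ofFinite _
        obtain ⟨v, hvr, hvz⟩ := word_undir Z r u hw
        refine ⟨v, fun i => ?_, hvr.trans hr, hvz⟩
        have h1 : (v i).natAbs ≤ ∑ i, (v i).natAbs :=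
          Finset.single_le_sum (f := fun i => (v i).natAbs) (fun _ _ => Nat.zero_le _)
            (Finset.mem_univ i)
        rw [Finset.mem_Icc]
        omega)
    have h2 : (({1, -1} : Finset ℤ).card : ℝ) = 2 := by norm_num
    rw [h2] at this
    exact this

end Pool.Agent.Results.MP_6efeb4_pr.TypicalDistance
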